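import Pool.Agent.H13.TFQ.H71.FJ.Group
import Pool.Agent.H13.TFQ.M21

/-!
# Lifting representations of cyclic groups; detection of classes by traces
-/

set_option autoImplicit false

open Matrix
open scoped Classical

universe u v w

namespace Pool.Agent.H71.FJ

section Root

open Polynomial

theorem root_exists {S : Type*} [CommRing S] {N : ℕ} (hN0 : N ≠ 0) (hN : IsUnit (N : S)) (Y : S)
    (h : IsNilpotent (Y ^ N - 1)) : ∃ r : S, IsNilpotent (Y - r) ∧ r ^ N = 1 := by
  have h1 : IsNilpotent (aeval Y (X ^ N - 1 : S[X])) := by simpa using h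
  have hYN : IsUnit (Y ^ N) := by
    have := h.isUnit_one_add
    rwa [add_sub_cancel] at this
  have hY : IsUnit Y := (isUnit_pow_iff hN0).1 hYN
  have h2 : IsUnit (aeval Y (derivative (X ^ N - 1 : S[X]))) := by
    rw [derivative_sub, derivative_one, sub_zero, derivative_X_pow, map_mul]
    simp only [map_natCast, map_pow, aeval_X]
    exact hN.mul (hY.pow _)
  obtain ⟨r, ⟨hr1, hr2⟩, _⟩ := existsUnique_nilpotent_sub_and_aeval_eq_zero h1 h2
  refine ⟨r, hr1, ?_⟩
  simpa [sub_eq_zero] using hr2

theorem root_unique {S : Type*} [CommRing S] {N : ℕ} (hN0 : N ≠ 0) (hN : IsUnit (N : S)) (Y Z : S)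
    (hY : Y ^ N = 1) (hZ : Z ^ N = 1) (h : IsNilpotent (Y - Z)) : Y = Z := by
  have h1 : IsNilpotent (aeval Y (X ^ N - 1 : S[X])) := by simp [hY]
  have hYu : IsUnit Y := (isUnit_pow_iff hN0).1 (by rw [hY]; exact isUnit_one)
  have h2 : IsUnit (aeval Y (derivative (X ^ N - 1 : S[X]))) := by
    rw [derivative_sub, derivative_one, sub_zero, derivative_X_pow, map_mul]
    simp only [map_natCast, map_pow, aeval_X]
    exact hN.mul (hYu.pow _)
  exact (existsUnique_nilpotent_sub_and_aeval_eq_zero h1 h2).unique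
    ⟨by simp, by simp [hY]⟩ ⟨h, by simp [hZ]⟩

end Root

/-- lifting roots of unity in matrix rings -/
theorem matrix_root_lift {B : Type u} [CommRing B] {K : Type v} [Field K] {φ : B →+* K}
    (hs : Function.Surjective φ) (hn : NilKer φ) {J : Type*} [Fintype J] [DecidableEq J] {N : ℕ}
    (hN0 : N ≠ 0) (hN : (N : K) ≠ 0) (X : Matrix J J K) (hX : X ^ N = 1) :
    ∃ Y : Matrix J J B, Y ^ N = 1 ∧ Y.map φ = X := by
  choose g hg using hs
  let Y₀ : Matrix J J B := X.map g
  have hY₀ : Y₀.map φ = X := by ext i j; simp [Y₀, hg]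
  have hNB : IsUnit (N : B) := by
    obtain ⟨c, hc⟩ := IsUnit.exists_right_inv (IsUnit.mk0 _ hN)
    obtain ⟨d, hd⟩ : ∃ d, φ d = c := ⟨g c, hg c⟩
    have h1 : IsNilpotent ((N : B) * d - 1) := by
      apply hn.isNilpotent
      rw [map_sub, map_mul, map_natCast, hd, hc, map_one, sub_self]
    have h2 := h1.isUnit_one_add
    rw [add_sub_cancel] at h2
    exact isUnit_of_mul_isUnit_left h2
  -- the commutative subalgebra generated by `Y₀`
  let S := Algebra.adjoin B ({Y₀} : Set (Matrix J J B))
  let _ : CommRing S := Algebra.adjoinCommRingOfComm B (by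
    intro a ha b hb
    rw [Set.mem_singleton_iff] at ha hb
    rw [ha, hb])
  let y : S := ⟨Y₀, Algebra.self_mem_adjoin_singleton B Y₀⟩
  have hker : (φ.mapMatrix : Matrix J J B →+* Matrix J J K) (Y₀ ^ N - 1) = 0 := by
    rw [map_sub, map_pow, map_one, RingHom.mapMatrix_apply, hY₀, hX, sub_self]
  have hnil : IsNilpotent (y ^ N - 1) := by
    obtain ⟨m, hm⟩ := (hn.matrix J).isNilpotent hker
    exact ⟨m, Subtype.ext hm⟩
  have hNS : IsUnit (N : S) := by
    have := hNB.map (algebraMap B S)
    rwa [map_natCast] at this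
  obtain ⟨r, hr1, hr2⟩ := root_exists hN0 hNS y hnil
  refine ⟨(r : Matrix J J B), congrArg Subtype.val hr2, ?_⟩
  -- uniqueness
  have hcomm : Y₀ * (r : Matrix J J B) = (r : Matrix J J B) * Y₀ :=
    congrArg Subtype.val (mul_comm y r)
  let Z : Matrix J J K := (r : Matrix J J B).map φ
  have hXZ : X * Z = Z * X := by
    have := congrArg (fun M : Matrix J J B => M.map φ) hcomm
    simp only [Matrix.map_mul, hY₀] at this
    exact this
  have hZN : Z ^ N = 1 := by
    have h1 : (r : Matrix J J B) ^ N = 1 := congrArg Subtype.val hr2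
    have h2 := congrArg (φ.mapMatrix : Matrix J J B →+* Matrix J J K) h1
    rw [map_pow, map_one] at h2
    exact h2
  have hXZn : IsNilpotent (X - Z) := by
    obtain ⟨m, hm⟩ := hr1
    refine ⟨m, ?_⟩
    have h1 : (Y₀ - (r : Matrix J J B)) ^ m = 0 := congrArg Subtype.val hm
    have h2 := congrArg (φ.mapMatrix : Matrix J J B →+* Matrix J J K) h1
    rw [map_pow, map_sub, map_zero, RingHom.mapMatrix_apply, RingHom.mapMatrix_apply, hY₀] at h2
    exact h2
  let S' := Algebra.adjoin K ({X, Z} : Set (Matrix J J K))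
  let _ : CommRing S' := Algebra.adjoinCommRingOfComm K (by
    intro a ha b hb
    rw [Set.mem_insert_iff, Set.mem_singleton_iff] at ha hb
    rcases ha with rfl | rfl <;> rcases hb with rfl | rfl
    · rfl
    · exact hXZ
    · exact hXZ.symm
    · rfl)
  let x' : S' := ⟨X, Algebra.subset_adjoin (by simp)⟩
  let z' : S' := ⟨Z, Algebra.subset_adjoin (by simp)⟩
  have hNS' : IsUnit (N : S') := by
    have := (IsUnit.mk0 _ hN).map (algebraMap K S')
    rwa [map_natCast] at this
  have := root_unique hN0 hNS' x' z' (Subtype.ext hX) (Subtype.ext hZN) (by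
    obtain ⟨m, hm⟩ := hXZn
    exact ⟨m, Subtype.ext hm⟩)
  exact (congrArg Subtype.val this).symm

/-- lifting representations of cyclic groups of invertible order -/
theorem exists_rep_lift {B : Type u} [CommRing B] {K : Type v} [Field K] {φ : B →+* K}
    (hs : Function.Surjective φ) (hn : NilKer φ) {J : Type*} [Fintype J] [DecidableEq J]
    {D : Type w} [Group D] [Finite D] [IsCyclic D] (hD : ∀ h : D, (orderOf h : K) ≠ 0)
    (ρ : D →* Matrix J J K) :
    ∃ ρ' : D →* Matrix J J B, ∀ h, (ρ' h).map φ = ρ h := by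
  obtain ⟨g, hg⟩ := IsCyclic.exists_generator (α := D)
  have hord : ρ g ^ orderOf g = 1 := by rw [← map_pow, pow_orderOf_eq_one, map_one]
  obtain ⟨Y, hY1, hY2⟩ := matrix_root_lift hs hn (orderOf_pos g).ne' (hD g) (ρ g) hord
  let U : (Matrix J J B)ˣ := Units.ofPowEqOne Y (orderOf g) hY1 (orderOf_pos g).ne'
  have hU : orderOf U ∣ orderOf g := by
    apply orderOf_dvd_of_pow_eq_one
    apply Units.ext
    rw [Units.val_pow_eq_pow_val, Units.val_one]
    exact hY1
  let ρ₀ : D →* (Matrix J J B)ˣ := monoidHomOfForallMemZpowers hg hU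
  have hρ₀ : ρ₀ g = U := monoidHomOfForallMemZpowers_apply_gen hg hU
  refine ⟨(Units.coeHom _).comp ρ₀, ?_⟩
  intro h
  obtain ⟨n, rfl⟩ : ∃ n : ℕ, g ^ n = h := by
    have := hg h
    rw [mem_zpowers_iff_mem_range_orderOf] at this
    simp only [Finset.mem_image] at this
    obtain ⟨n, _, hn⟩ := this
    exact ⟨n, hn⟩
  have h1 : ((Units.coeHom _).comp ρ₀) (g ^ n) = Y ^ n := by
    rw [map_pow]
    congr 1
    rw [MonoidHom.comp_apply, hρ₀]
    rfl
  rw [h1]
  have h2 : (Y ^ n).map φ = (φ.mapMatrix : Matrix J J B →+* Matrix J J K) (Y ^ n) := rfl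
  rw [h2, map_pow, RingHom.mapMatrix_apply, hY2, map_pow]

section LT

variable {k : Type u} [Field k] {K : Type v} [Field K] (L : LiftSys K) (n : ℕ) (i : k →+* K)

/-- On an abelian finite group every functional is a combination of coefficient functionals. -/
theorem LT_eq_sum {D : Type w} [Group D] [Fintype D] (hD : ∀ a b : D, a * b = b * a)
    (f : D → L.B n) (hf : ∀ x y, f (x * y) = f (y * x)) (x : K0 (MonoidAlgebra k D)) :
    LT L n i f hf x = ∑ c : D, f c * LT L n i (dlt (L.B n) c) (fun a b => by rw [hD a b]) x := by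
  simp only [LT, AddMonoidHom.comp_apply]
  have hsum : ∀ a : D, f a = ∑ c : D, f c * dlt (L.B n) c a := by
    intro a
    rw [Finset.sum_eq_single a]
    · rw [dlt_self, mul_one]
    · intro c _ hc
      rw [dlt_ne _ (Ne.symm hc), mul_zero]
    · intro h
      exact absurd (Finset.mem_univ _) h
  rw [T_congr hf (g := fun a => ∑ c : D, f c * dlt (L.B n) c a)
      (fun a b => by rw [hD a b]) hsum,
    T_sum Finset.univ f (fun c => dlt (L.B n) c) (fun c a b => by rw [hD a b])]

theorem LT_rep {D : Type w} [Group D] {J : Type*} [Fintype J] [DecidableEq J]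
    (ρ : MonoidAlgebra k D →ₐ[k] Matrix J J k) (ρ' : D →* Matrix J J (L.B n))
    (h : ∀ g, (ρ' g).map (L.π n) = (ρ (MonoidAlgebra.single g 1)).map i)
    (x : K0 (MonoidAlgebra k D)) :
    (K0.rk (K0.push (ρ : MonoidAlgebra k D →+* Matrix J J k) x) : L.B n) =
      LT L n i (fun g => trace (ρ' g)) (fun a b => by
        simp only [map_mul]
        exact trace_mul_comm _ _) x := by
  let R' : MonoidAlgebra (L.B n) D →ₐ[L.B n] Matrix J J (L.B n) := MonoidAlgebra.lift _ _ D ρ'
  have hR' : ∀ g r, R' (MonoidAlgebra.single g r) = r • ρ' g :=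
    fun g r => MonoidAlgebra.lift_single _ _ _
  rw [← K0.rk_map i, K0.map_push]
  have e1 : i.mapMatrix.comp (ρ : MonoidAlgebra k D →+* Matrix J J k) =
      (MonoidAlgebra.lift K (Matrix J J K) D
        ((i.mapMatrix : Matrix J J k →+* Matrix J J K).toMonoidHom.comp
          ((ρ : MonoidAlgebra k D →* Matrix J J k).comp (MonoidAlgebra.of k D)))).toRingHom.comp
        (MonoidAlgebra.mapRingHom D i) := by
    apply RingHom.ext
    intro a
    induction a using MonoidAlgebra.induction_linear with
    | zero => simp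
    | add a b ha hb => rw [map_add, map_add, ha, hb]
    | single g r =>
      rw [RingHom.comp_apply, RingHom.comp_apply, MonoidAlgebra.mapRingHom_single]
      change i.mapMatrix (ρ (MonoidAlgebra.single g r)) = MonoidAlgebra.lift K (Matrix J J K) D _
        (MonoidAlgebra.single g (i r))
      rw [MonoidAlgebra.lift_single]
      have : MonoidAlgebra.single g r = r • MonoidAlgebra.single g (1 : k) := by
        rw [MonoidAlgebra.smul_single, smul_eq_mul, mul_one]
      rw [this, map_smul]
      ext a b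
      simp [MonoidAlgebra.of_apply]
  have e2 : (MonoidAlgebra.lift K (Matrix J J K) D
        ((i.mapMatrix : Matrix J J k →+* Matrix J J K).toMonoidHom.comp
          ((ρ : MonoidAlgebra k D →* Matrix J J k).comp (MonoidAlgebra.of k D)))).toRingHom.comp
        (MonoidAlgebra.mapRingHom D (L.π n)) = (L.π n).mapMatrix.comp R'.toRingHom := by
    apply RingHom.ext
    intro a
    induction a using MonoidAlgebra.induction_linear with
    | zero => simp
    | add a b ha hb => rw [map_add, map_add, ha, hb]
    | single g r =>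
      rw [RingHom.comp_apply, RingHom.comp_apply, MonoidAlgebra.mapRingHom_single]
      change MonoidAlgebra.lift K (Matrix J J K) D _ (MonoidAlgebra.single g (L.π n r)) =
        (L.π n).mapMatrix (R' (MonoidAlgebra.single g r))
      rw [MonoidAlgebra.lift_single, hR']
      ext a b
      have := congrFun (congrFun (h g) a) b
      simp only [Matrix.map_apply] at this
      simp [MonoidAlgebra.of_apply, this]
  rw [e1, ← K0.push_map, ← map_liftK L n i, K0.push_map, e2, ← K0.map_push,
    ← K0.tr_eq_rk (L.surj n) (L.nil n)]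
  rw [show K0.push R'.toRingHom (liftK L n i D x) = K0.push (R' : MonoidAlgebra (L.B n) D →+*
    Matrix J J (L.B n)) (liftK L n i D x) from rfl, tr_push_rep _ R' (trace_rep_comm _ R')]
  simp only [LT, AddMonoidHom.comp_apply]
  apply T_congr
  intro g
  rw [hR', one_smul]

/-- For a finite cyclic group of order invertible in `k`, classes in `K₀(k[D])` are detected by the
lifted coefficient functionals. -/
theorem detect_cyclic {D : Type w} [Group D] [Fintype D] [IsCyclic D]
    (hD : ∀ h : D, (orderOf h : k) ≠ 0) (hcomm : ∀ a b : D, a * b = b * a) (M : ℤ) (hM : M ≠ 0)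
    (x : K0 (MonoidAlgebra k D))
    (hx : ∀ (n : ℕ) (c : D), (M : L.B n) *
      LT L n i (dlt (L.B n) c) (fun a b => by rw [hcomm a b]) x = 0) : x = 0 := by
  have : Module.Finite k (MonoidAlgebra k D) := inferInstance
  apply K0.eq_zero_of_rk_push (k := k)
  intro J _ _ ρ
  have key : M * K0.rk (K0.push (ρ : MonoidAlgebra k D →+* Matrix J J k) x) = 0 := by
    apply L.int
    intro n
    have hDK : ∀ h : D, (orderOf h : K) ≠ 0 := by
      intro h h0
      apply hD h
      rw [← map_natCast i, map_eq_zero_iff _ i.injective] at h0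
      exact h0
    obtain ⟨ρ', hρ'⟩ := exists_rep_lift (L.surj n) (L.nil n) (D := D) hDK
      ((i.mapMatrix : Matrix J J k →+* Matrix J J K).toMonoidHom.comp
          ((ρ : MonoidAlgebra k D →* Matrix J J k).comp (MonoidAlgebra.of k D)))
    rw [Int.cast_mul, LT_rep L n i ρ ρ' hρ' x, LT_eq_sum L n i hcomm, Finset.mul_sum]
    apply Finset.sum_eq_zero
    intro c _
    rw [mul_left_comm, hx n c, mul_zero]
  exact (mul_eq_zero.1 key).resolve_left hM

end LT

end Pool.Agent.H71.FJ
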