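import Pool.Agent.H13.TFQ.M14

/-!
# Restriction and twisted permutation representations
-/

set_option autoImplicit false

open Matrix
open scoped Classical

universe u v w

namespace Pool.Agent.H71.FJ

section Perm

variable (R : Type u) [CommRing R] {F : Type v} [Group F]

theorem out_mem_iff (D : Subgroup F) (h : F) (x y : F ⧸ D) :
    x.out⁻¹ * h * y.out ∈ D ↔ x = h • y := by
  have h1 : h • y = ((h * y.out : F) : F ⧸ D) := by
    conv_lhs => rw [← QuotientGroup.out_eq' y]
    rfl
  rw [h1]
  conv_rhs => rw [← QuotientGroup.out_eq' x]
  rw [QuotientGroup.eq, mul_assoc]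

/-- The monomial matrix over `R[D]` of left multiplication by `h` on the free right `R[D]`-module
`R[F]`. -/
noncomputable def lamMat (D : Subgroup F) (h : F) :
    Matrix (F ⧸ D) (F ⧸ D) (MonoidAlgebra R D) :=
  Matrix.of fun x y => if hh : x.out⁻¹ * h * y.out ∈ D then
    MonoidAlgebra.single (⟨x.out⁻¹ * h * y.out, hh⟩ : D) 1 else 0

/-- The restriction homomorphism `R[F] → Mat_{F/D}(R[D])`. -/
noncomputable def lam (D : Subgroup F) [Fintype (F ⧸ D)] :
    MonoidAlgebra R F →ₐ[R] Matrix (F ⧸ D) (F ⧸ D) (MonoidAlgebra R D) :=
  MonoidAlgebra.lift R _ F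
    { toFun := lamMat R D
      map_one' := by
        ext x y : 1
        rw [lamMat, of_apply, Matrix.one_apply]
        by_cases hxy : x = y
        · subst hxy
          have : x.out⁻¹ * 1 * x.out ∈ D := by simp
          rw [dif_pos this, if_pos rfl, MonoidAlgebra.one_def]
          refine congrArg (fun g : D => MonoidAlgebra.single g (1 : R)) (Subtype.ext ?_)
          simp
        · rw [dif_neg, if_neg hxy]
          rw [out_mem_iff, one_smul]
          exact hxy
      map_mul' := by
        intro h h'
        ext x z : 1
        rw [Matrix.mul_apply, Finset.sum_eq_single (h' • z)]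
        · simp only [lamMat, of_apply]
          have h1 : (h' • z).out⁻¹ * h' * z.out ∈ D := (out_mem_iff D h' _ z).2 rfl
          rw [dif_pos h1]
          by_cases h2 : x.out⁻¹ * h * (h' • z).out ∈ D
          · have h3 : x.out⁻¹ * (h * h') * z.out ∈ D := by
              have := D.mul_mem h2 h1
              have e : x.out⁻¹ * h * (h' • z).out * ((h' • z).out⁻¹ * h' * z.out) =
                x.out⁻¹ * (h * h') * z.out := by group
              rwa [e] at this
            rw [dif_pos h2, dif_pos h3, MonoidAlgebra.single_mul_single, one_mul]
            refine congrArg (fun g : D => MonoidAlgebra.single g (1 : R)) (Subtype.ext ?_)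
            simp only [Subgroup.coe_mul]
            group
          · have h3 : ¬ x.out⁻¹ * (h * h') * z.out ∈ D := by
              intro h3
              apply h2
              rw [out_mem_iff] at h3 ⊢
              rw [h3, mul_smul]
            rw [dif_neg h2, dif_neg h3, zero_mul]
        · intro y _ hy
          simp only [lamMat, of_apply]
          have : ¬ y.out⁻¹ * h' * z.out ∈ D := by
            rw [out_mem_iff]
            exact hy
          rw [dif_neg this, mul_zero]
        · intro h1
          exact absurd (Finset.mem_univ _) h1 }

theorem lam_single (D : Subgroup F) [Fintype (F ⧸ D)] (h : F) (r : R) (x y : F ⧸ D) :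
    lam R D (MonoidAlgebra.single h r) x y = if hh : x.out⁻¹ * h * y.out ∈ D then
      MonoidAlgebra.single (⟨x.out⁻¹ * h * y.out, hh⟩ : D) r else 0 := by
  rw [lam, MonoidAlgebra.lift_single]
  change r • (lamMat R D h) x y = _
  rw [lamMat, of_apply]
  split_ifs
  · rw [MonoidAlgebra.smul_single, smul_eq_mul, mul_one]
  · rw [smul_zero]

/-- The twisted permutation representation `R[F] → Mat_X(R[F])`. -/
noncomputable def tw (X : Type w) [Fintype X] [DecidableEq X] [MulAction F X] :
    MonoidAlgebra R F →ₐ[R] Matrix X X (MonoidAlgebra R F) :=
  MonoidAlgebra.lift R _ F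
    { toFun := fun h => Matrix.of fun x y => if x = h • y then MonoidAlgebra.single h 1 else 0
      map_one' := by
        ext x y : 1
        rw [of_apply, Matrix.one_apply, one_smul, MonoidAlgebra.one_def]
      map_mul' := by
        intro h h'
        ext x z : 1
        rw [Matrix.mul_apply, Finset.sum_eq_single (h' • z)]
        · simp only [of_apply, if_true]
          by_cases h2 : x = h • h' • z
          · rw [if_pos h2, if_pos (by rw [h2, mul_smul]), MonoidAlgebra.single_mul_single, one_mul]
          · rw [if_neg h2, if_neg (by rw [mul_smul]; exact h2), zero_mul]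
        · intro y _ hy
          simp only [of_apply]
          rw [if_neg hy, mul_zero]
        · intro h1
          exact absurd (Finset.mem_univ _) h1 }

theorem tw_single (X : Type w) [Fintype X] [DecidableEq X] [MulAction F X] (h : F) (r : R) (x y : X) :
    tw R X (MonoidAlgebra.single h r) x y = if x = h • y then MonoidAlgebra.single h r else 0 := by
  rw [tw, MonoidAlgebra.lift_single]
  change r • (if x = h • y then MonoidAlgebra.single h (1 : R) else 0) = _
  split_ifs
  · rw [MonoidAlgebra.smul_single, smul_eq_mul, mul_one]
  · rw [smul_zero]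

/-- The permutation representation `R[F] → Mat_X(R)`. -/
noncomputable def perm (X : Type w) [Fintype X] [DecidableEq X] [MulAction F X] :
    MonoidAlgebra R F →ₐ[R] Matrix X X R :=
  MonoidAlgebra.lift R _ F
    { toFun := fun h => Matrix.of fun x y => if x = h • y then 1 else 0
      map_one' := by
        ext x y : 1
        rw [of_apply, Matrix.one_apply, one_smul]
      map_mul' := by
        intro h h'
        ext x z : 1
        rw [Matrix.mul_apply, Finset.sum_eq_single (h' • z)]
        · simp only [of_apply, if_true]
          by_cases h2 : x = h • h' • z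
          · rw [if_pos h2, if_pos (by rw [h2, mul_smul]), one_mul]
          · rw [if_neg h2, if_neg (by rw [mul_smul]; exact h2), zero_mul]
        · intro y _ hy
          simp only [of_apply]
          rw [if_neg hy, mul_zero]
        · intro h1
          exact absurd (Finset.mem_univ _) h1 }

theorem perm_single (X : Type w) [Fintype X] [DecidableEq X] [MulAction F X] (h : F) (r : R) (x y : X) :
    perm R X (MonoidAlgebra.single h r) x y = if x = h • y then r else 0 := by
  rw [perm, MonoidAlgebra.lift_single]
  change r • (if x = h • y then (1 : R) else 0) = _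
  split_ifs <;> simp

/-- `lam` as a ring homomorphism -/
noncomputable abbrev lamR (D : Subgroup F) [Fintype (F ⧸ D)] :
    MonoidAlgebra R F →+* Matrix (F ⧸ D) (F ⧸ D) (MonoidAlgebra R D) := (lam R D).toRingHom

/-- `tw` as a ring homomorphism -/
noncomputable abbrev twR (X : Type w) [Fintype X] [DecidableEq X] [MulAction F X] :
    MonoidAlgebra R F →+* Matrix X X (MonoidAlgebra R F) := (tw R X).toRingHom

/-- `perm` as a ring homomorphism -/
noncomputable abbrev permR (X : Type w) [Fintype X] [DecidableEq X] [MulAction F X] :
    MonoidAlgebra R F →+* Matrix X X R := (perm R X).toRingHom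

/-- Inclusion of group rings of subgroups. -/
noncomputable abbrev incl (D : Subgroup F) : MonoidAlgebra R D →+* MonoidAlgebra R F :=
  MonoidAlgebra.mapDomainRingHom R D.subtype

/-- Restriction followed by induction is the twist by the permutation representation. -/
theorem ind_res (D : Subgroup F) [Fintype (F ⧸ D)] (x : K0 (MonoidAlgebra R F)) :
    K0.map (incl R D) (K0.push (lamR R D) x) = K0.push (twR R (F ⧸ D)) x := by
  rw [K0.map_push]
  symm
  refine K0.push_congr _ _ (diagonal fun x : F ⧸ D => MonoidAlgebra.single x.out (1 : R))
    (diagonal fun x : F ⧸ D => MonoidAlgebra.single x.out⁻¹ (1 : R)) ?_ ?_ ?_ x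
  · rw [diagonal_mul_diagonal]
    simp only [MonoidAlgebra.single_mul_single, mul_inv_cancel, one_mul, ← MonoidAlgebra.one_def]
    exact diagonal_one
  · rw [diagonal_mul_diagonal]
    simp only [MonoidAlgebra.single_mul_single, inv_mul_cancel, one_mul, ← MonoidAlgebra.one_def]
    exact diagonal_one
  · intro r
    induction r using MonoidAlgebra.induction_linear with
    | zero => simp
    | add a b ha hb => rw [map_add, map_add, Matrix.mul_add, Matrix.add_mul, ha, hb]
    | single h r =>
      ext x y : 1
      rw [Matrix.diagonal_mul, Matrix.mul_diagonal]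
      change _ * (incl R D) (lam R D (MonoidAlgebra.single h r) x y) =
        tw R (F ⧸ D) (MonoidAlgebra.single h r) x y * _
      rw [lam_single, tw_single]
      by_cases hh : x.out⁻¹ * h * y.out ∈ D
      · rw [dif_pos hh, if_pos ((out_mem_iff D h x y).1 hh)]
        simp only [incl, MonoidAlgebra.mapDomainRingHom_apply, MonoidAlgebra.mapDomain_single,
          MonoidAlgebra.single_mul_single, Subgroup.coe_subtype, one_mul, mul_one]
        congr 1
        group
      · rw [dif_neg hh, if_neg (fun h' => hh ((out_mem_iff D h x y).2 h')), map_zero, mul_zero,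
          zero_mul]

/-- the trace of an idempotent matrix under a representation -/
theorem tr_push_rep {J : Type*} [Fintype J] [DecidableEq J]
    (ρ : MonoidAlgebra R F →ₐ[R] Matrix J J R)
    (hf : ∀ x y : F, trace (ρ (MonoidAlgebra.single (x * y) 1)) =
      trace (ρ (MonoidAlgebra.single (y * x) 1)))
    (x : K0 (MonoidAlgebra R F)) :
    K0.tr (AddMonoidHom.id R) (fun x y => mul_comm x y)
      (K0.push (ρ : MonoidAlgebra R F →+* Matrix J J R) x) =
      T (fun h => trace (ρ (MonoidAlgebra.single h 1))) hf x := by
  rw [K0.tr_push]
  refine K0.tr_congr _ _ ?_ x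
  ext h r
  simp only [AddMonoidHom.comp_apply, MonoidAlgebra.singleAddHom_apply]
  rw [clsFun_single]
  change trace (ρ (MonoidAlgebra.single h r)) = _
  have : MonoidAlgebra.single h r = r • MonoidAlgebra.single h (1 : R) := by
    rw [MonoidAlgebra.smul_single, smul_eq_mul, mul_one]
  rw [this, map_smul, trace_smul, smul_eq_mul]

theorem trace_rep_comm {J : Type*} [Fintype J] [DecidableEq J]
    (ρ : MonoidAlgebra R F →ₐ[R] Matrix J J R) (x y : F) :
    trace (ρ (MonoidAlgebra.single (x * y) 1)) = trace (ρ (MonoidAlgebra.single (y * x) 1)) := by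
  have h1 : MonoidAlgebra.single (x * y) (1 : R) = MonoidAlgebra.single x 1 *
    MonoidAlgebra.single y 1 := by rw [MonoidAlgebra.single_mul_single, one_mul]
  have h2 : MonoidAlgebra.single (y * x) (1 : R) = MonoidAlgebra.single y 1 *
    MonoidAlgebra.single x 1 := by rw [MonoidAlgebra.single_mul_single, one_mul]
  rw [h1, h2, map_mul, map_mul, trace_mul_comm]

theorem trace_perm (X : Type w) [Fintype X] [DecidableEq X] [MulAction F X] (h : F) :
    trace (perm R X (MonoidAlgebra.single h 1)) =
      ((Finset.univ.filter fun x : X => x = h • x).card : R) := by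
  simp only [trace, diag, perm_single]
  rw [Finset.sum_boole]

end Perm

end Pool.Agent.H71.FJ
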