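import Pool.Agent.H13.TFQ.H71.FJ.CycLift_1
import Pool.Agent.H13.TFQ.H71.FJ.Prim2

/-!
# Rational injectivity of the degree zero assembly map
-/

set_option autoImplicit false

open Matrix
open scoped Classical

universe t u v w

namespace Pool.Agent.H71.FJ

section

variable {k : Type u} [Field k] {K : Type t} [Field K] (L : LiftSys K) (i : k →+* K)

theorem isPrim_zero {D : Type w} [Group D] [IsCyclic D] :
    IsPrim L i (0 : K0 (MonoidAlgebra k D)) := by
  intro n c _
  rw [map_zero]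

theorem isPrim_add {D : Type w} [Group D] [IsCyclic D] {x y : K0 (MonoidAlgebra k D)}
    (hx : IsPrim L i x) (hy : IsPrim L i y) : IsPrim L i (x + y) := by
  intro n c hc
  rw [map_add, hx n c hc, hy n c hc, add_zero]

theorem isPrim_neg {D : Type w} [Group D] [IsCyclic D] {x : K0 (MonoidAlgebra k D)}
    (hx : IsPrim L i x) : IsPrim L i (-x) := by
  intro n c hc
  rw [map_neg, hx n c hc, neg_zero]

variable {G : Type v} [Group G]

theorem primSet_neg {z : ColimK0 k G} (hz : z ∈ PrimSet L i G) : -z ∈ PrimSet L i G := by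
  obtain ⟨D, hc, ho, y, hy, rfl⟩ := hz
  refine ⟨D, hc, ho, -y, isPrim_neg L i hy, ?_⟩
  rw [← clHom_apply, ← clHom_apply, map_neg]

/-- the class function of the conjugacy class of `c` -/
noncomputable def cf (B : Type w) [CommRing B] (c h : G) : B := if IsConj c h then 1 else 0

theorem cf_comm (B : Type w) [CommRing B] (c x y : G) : cf B c (x * y) = cf B c (y * x) := by
  have h : IsConj (x * y) (y * x) := isConj_iff.2 ⟨x⁻¹, by group⟩
  unfold cf
  by_cases h1 : IsConj c (x * y)
  · rw [if_pos h1, if_pos (h1.trans h)]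
  · rw [if_neg h1, if_neg (fun h2 => h1 (h2.trans h.symm))]

/-- The trace functional of the conjugacy class of `c` on a class from a cyclic subgroup. -/
theorem LT_cf (n : ℕ) (c : G) (D : FinSub G) [Fintype D.1] [IsCyclic D.1]
    (y : K0 (MonoidAlgebra k D.1)) :
    LT L n i (cf (L.B n) c) (cf_comm _ c) (assembly k G (cl D y)) =
      ∑ d ∈ Finset.univ.filter (fun d : D.1 => IsConj c (d : G)),
        LT L n i (dlt (L.B n) d) (dlt_comm _ d) y := by
  rw [assembly_cl, LT_map, LT_eq_sum L n i cyc_comm, Finset.sum_filter]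
  apply Finset.sum_congr rfl
  intro d _
  change cf (L.B n) c (d : G) * _ = _
  unfold cf
  split_ifs
  · rw [one_mul]
  · rw [zero_mul]

/-- A class from a cyclic subgroup `D₀`. -/
def Over (D₀ : FinSub G) [IsCyclic D₀.1] (z : ColimK0 k G) : Prop :=
  ∃ y : K0 (MonoidAlgebra k D₀.1), IsPrim L i y ∧ z = cl D₀ y

theorem over_of_conj (D₀ D : FinSub G) [IsCyclic D₀.1] [IsCyclic D.1] (c : D₀.1) (d : D.1)
    (hc : Subgroup.zpowers c = ⊤) (hd : Subgroup.zpowers d = ⊤) (h : IsConj (c : G) (d : G))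
    (y : K0 (MonoidAlgebra k D.1)) (hy : IsPrim L i y) : Over L i D₀ (cl D y) := by
  obtain ⟨g, hg⟩ := isConj_iff.1 h
  have hg' : g⁻¹ * (d : G) * g⁻¹⁻¹ = c := by rw [← hg]; group
  have h1 : ∀ x ∈ D₀.1, g * x * g⁻¹ ∈ D.1 := by
    intro x hx
    have : (⟨x, hx⟩ : D₀.1) ∈ Subgroup.zpowers c := by rw [hc]; trivial
    obtain ⟨m, hm⟩ := Subgroup.mem_zpowers_iff.1 this
    have hm' : (c : G) ^ m = x := by
      rw [← Subgroup.coe_zpow, hm]
    rw [← hm', ← conj_zpow, hg]
    exact D.1.zpow_mem d.2 m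
  have h2 : ∀ x ∈ D.1, g⁻¹ * x * g⁻¹⁻¹ ∈ D₀.1 := by
    intro x hx
    have : (⟨x, hx⟩ : D.1) ∈ Subgroup.zpowers d := by rw [hd]; trivial
    obtain ⟨m, hm⟩ := Subgroup.mem_zpowers_iff.1 this
    have hm' : (d : G) ^ m = x := by
      rw [← Subgroup.coe_zpow, hm]
    rw [← hm', ← conj_zpow, hg']
    exact D₀.1.zpow_mem c.2 m
  let e : D.1 ≃* D₀.1 :=
    { toFun := conjHom g⁻¹ D.1 D₀.1 h2
      invFun := conjHom g D₀.1 D.1 h1
      left_inv := by
        intro x
        apply Subtype.ext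
        change g * (g⁻¹ * (x : G) * g⁻¹⁻¹) * g⁻¹ = x
        group
      right_inv := by
        intro x
        apply Subtype.ext
        change g⁻¹ * (g * (x : G) * g⁻¹) * g⁻¹⁻¹ = x
        group
      map_mul' := map_mul _ }
  refine ⟨K0.map (MonoidAlgebra.mapDomainRingHom k e.toMonoidHom) y, isPrim_map L i e hy, ?_⟩
  exact (cl_conj D D₀ g⁻¹ h2 y).symm

theorem LT_cf_not_over (n : ℕ) (D₀ D : FinSub G) [Fintype D.1] [IsCyclic D₀.1] [IsCyclic D.1]
    (c : D₀.1) (hc : Subgroup.zpowers c = ⊤) (y : K0 (MonoidAlgebra k D.1)) (hy : IsPrim L i y)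
    (h : ¬ Over L i D₀ (cl D y)) :
    LT L n i (cf (L.B n) (c : G)) (cf_comm _ (c : G)) (assembly k G (cl D y)) = 0 := by
  rw [LT_cf]
  apply Finset.sum_eq_zero
  intro d hd
  apply hy
  intro hd'
  exact h (over_of_conj L i D₀ D c d hc hd' (Finset.mem_filter.1 hd).2 y hy)

theorem split_list (D₀ : FinSub G) [IsCyclic D₀.1] (l : List (ColimK0 k G))
    (hl : ∀ z ∈ l, z ∈ PrimSet L i G) :
    ∃ y : K0 (MonoidAlgebra k D₀.1), IsPrim L i y ∧ ∃ l' : List (ColimK0 k G),
      (∀ z ∈ l', z ∈ PrimSet L i G ∧ ¬ Over L i D₀ z) ∧ l'.length ≤ l.length ∧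
        l.sum = cl D₀ y + l'.sum := by
  induction l with
  | nil =>
    refine ⟨0, isPrim_zero L i, [], by simp, le_rfl, ?_⟩
    rw [← clHom_apply, map_zero, zero_add]
  | cons z l ih =>
    obtain ⟨y, hy, l', h1, h2, h3⟩ := ih (fun z hz => hl z (List.mem_cons_of_mem _ hz))
    by_cases hz : Over L i D₀ z
    · obtain ⟨y', hy', rfl⟩ := hz
      refine ⟨y' + y, isPrim_add L i hy' hy, l', h1, h2.trans (by simp), ?_⟩
      rw [List.sum_cons, h3, ← clHom_apply, ← clHom_apply, ← clHom_apply, map_add, add_assoc]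
    · refine ⟨y, hy, z :: l', ?_, by simpa using h2, ?_⟩
      · intro z' hz'
        rcases List.mem_cons.1 hz' with rfl | hz'
        · exact ⟨hl _ List.mem_cons_self, hz⟩
        · exact h1 _ hz'
      · rw [List.sum_cons, List.sum_cons, h3]
        abel

theorem mulAut_finite (D : Type w) [Group D] [Finite D] : Finite (MulAut D) :=
  Finite.of_injective (fun f : MulAut D => (f : D → D)) (fun _ _ h => MulEquiv.ext (congrFun h))

theorem LT_aut {D : Type w} [Group D] [IsCyclic D] (n : ℕ) (w : MulAut D) (c : D)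
    (y : K0 (MonoidAlgebra k D)) :
    LT L n i (dlt (L.B n) c) (dlt_comm _ c)
      (K0.map (MonoidAlgebra.mapDomainRingHom k w.toMonoidHom) y) =
    LT L n i (dlt (L.B n) (w.symm c)) (dlt_comm _ _) y := by
  rw [LT_map]
  have h1 : ∀ a : D, dlt (L.B n) c (w.toMonoidHom a) = dlt (L.B n) (w.symm c) a := by
    intro a
    by_cases ha : a = w.symm c
    · subst ha
      have : w.toMonoidHom (w.symm c) = c := w.apply_symm_apply c
      rw [this, dlt_self, dlt_self]
    · rw [dlt_ne _ ha, dlt_ne]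
      intro h
      apply ha
      rw [← h]
      exact (w.symm_apply_apply a).symm
  exact LT_congr L n i _ (dlt_comm _ _) h1 y

/-- Automorphisms of `D₀` induced by conjugations of `G`. -/
def IsInd (D₀ : Subgroup G) (w : MulAut D₀) : Prop := ∃ g : G, ∀ d : D₀, (w d : G) = g * d * g⁻¹

theorem zpowers_aut {D : Type w} [Group D] (w : MulAut D) (c : D) (h : Subgroup.zpowers c ≠ ⊤) :
    Subgroup.zpowers (w c) ≠ ⊤ := by
  intro h'
  apply h
  rw [eq_top_iff]
  intro d _
  have h2 : w d ∈ Subgroup.zpowers (w c) := by rw [h']; trivial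
  obtain ⟨m, hm⟩ := Subgroup.mem_zpowers_iff.1 h2
  refine Subgroup.mem_zpowers_iff.2 ⟨m, ?_⟩
  apply w.injective
  rw [map_zpow, hm]

theorem sum_ind {M : Type*} [AddCommMonoid M] (D₀ : Subgroup G) [Fintype D₀] [Fintype (MulAut D₀)]
    (c : D₀) (hc : Subgroup.zpowers c = ⊤) (f : D₀ → M) :
    ∑ w ∈ Finset.univ.filter (fun w : MulAut D₀ => IsInd D₀ w), f (w.symm c) =
      ∑ d ∈ Finset.univ.filter (fun d : D₀ => IsConj (c : G) (d : G)), f d := by
  apply Finset.sum_bij (fun w _ => w.symm c)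
  · intro w hw
    obtain ⟨g, hg⟩ := (Finset.mem_filter.1 hw).2
    rw [Finset.mem_filter]
    refine ⟨Finset.mem_univ _, ?_⟩
    have := hg (w.symm c)
    rw [w.apply_symm_apply] at this
    rw [isConj_comm]
    exact isConj_iff.2 ⟨g, this.symm⟩
  · intro w1 _ w2 _ h
    have h' : w1.symm = w2.symm := by
      apply MulEquiv.ext
      intro d
      have : d ∈ Subgroup.zpowers c := by rw [hc]; trivial
      obtain ⟨m, rfl⟩ := Subgroup.mem_zpowers_iff.1 this
      rw [map_zpow, map_zpow]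
      exact congrArg (· ^ m) h
    have h2 := congrArg MulEquiv.symm h'
    rwa [MulEquiv.symm_symm, MulEquiv.symm_symm] at h2
  · intro d hd
    obtain ⟨g, hg⟩ := isConj_iff.1 (Finset.mem_filter.1 hd).2
    have h1 : ∀ x ∈ D₀, g * x * g⁻¹ ∈ D₀ := by
      intro x hx
      have : (⟨x, hx⟩ : D₀) ∈ Subgroup.zpowers c := by rw [hc]; trivial
      obtain ⟨m, hm⟩ := Subgroup.mem_zpowers_iff.1 this
      have hm' : (c : G) ^ m = x := by
        rw [← Subgroup.coe_zpow, hm]
      rw [← hm', ← conj_zpow, hg]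
      exact D₀.zpow_mem d.2 m
    have hinj : Function.Injective (conjHom g D₀ D₀ h1) := by
      intro a b hab
      have := congrArg (fun x : D₀ => (x : G)) hab
      change g * (a : G) * g⁻¹ = g * (b : G) * g⁻¹ at this
      exact Subtype.ext (mul_left_cancel (mul_right_cancel this))
    let e : MulAut D₀ := MulEquiv.ofBijective (conjHom g D₀ D₀ h1)
      (Finite.injective_iff_bijective.1 hinj)
    have he : ∀ x : D₀, ((e x : D₀) : G) = g * x * g⁻¹ := fun x => rfl
    refine ⟨e.symm, ?_, ?_⟩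
    · rw [Finset.mem_filter]
      refine ⟨Finset.mem_univ _, g⁻¹, fun x => ?_⟩
      have := he (e.symm x)
      rw [e.apply_symm_apply] at this
      rw [this]
      group
    · rw [MulEquiv.symm_symm]
      apply Subtype.ext
      rw [he, hg]
  · intro w _
    rfl

/-- If the conjugacy class functionals of a primitive class of a cyclic subgroup vanish, then
its class in the colimit is torsion. -/
theorem torsion_of_vanish (D₀ : FinSub G) [IsCyclic D₀.1] (ho : ∀ h : D₀.1, (orderOf h : k) ≠ 0)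
    (y : K0 (MonoidAlgebra k D₀.1)) (hy : IsPrim L i y) (M : ℤ) (hM : M ≠ 0)
    (h : ∀ (n : ℕ) (c : D₀.1), Subgroup.zpowers c = ⊤ →
      (M : L.B n) * LT L n i (cf (L.B n) (c : G)) (cf_comm _ (c : G))
        (assembly k G (cl D₀ y)) = 0) :
    ∃ m : ℤ, m ≠ 0 ∧ m • cl D₀ y = 0 := by
  have := D₀.2
  have : Fintype D₀.1 := Fintype.ofFinite D₀.1
  have := mulAut_finite D₀.1
  have : Fintype (MulAut D₀.1) := Fintype.ofFinite _
  let W := Finset.univ.filter (fun w : MulAut D₀.1 => IsInd D₀.1 w)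
  have h0 : (∑ w ∈ W, K0.map (MonoidAlgebra.mapDomainRingHom k w.toMonoidHom) y) = 0 := by
    apply detect_cyclic L i ho cyc_comm M hM
    intro n c
    rw [map_sum]
    have e1 : ∀ w : MulAut D₀.1, LT L n i (dlt (L.B n) c) (dlt_comm _ c)
      (K0.map (MonoidAlgebra.mapDomainRingHom k w.toMonoidHom) y) =
        LT L n i (dlt (L.B n) (w.symm c)) (dlt_comm _ _) y := fun w => LT_aut L i n w c y
    rw [Finset.sum_congr rfl (fun w _ => e1 w)]
    by_cases hc : Subgroup.zpowers c = ⊤
    · have e2 := h n c hc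
      rw [LT_cf] at e2
      rw [← e2]
      congr 1
      exact sum_ind D₀.1 c hc (fun d => LT L n i (dlt (L.B n) d) (dlt_comm _ _) y)
    · rw [Finset.sum_eq_zero, mul_zero]
      intro w _
      exact hy n _ (zpowers_aut w.symm c hc)
  have h1 : ∀ w ∈ W, cl D₀ (K0.map (MonoidAlgebra.mapDomainRingHom k w.toMonoidHom) y) =
      cl D₀ y := by
    intro w hw
    obtain ⟨g, hg⟩ := (Finset.mem_filter.1 hw).2
    have hr : ∀ x ∈ D₀.1, g * x * g⁻¹ ∈ D₀.1 := by
      intro x hx
      rw [← hg ⟨x, hx⟩]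
      exact (w ⟨x, hx⟩).2
    have e1 : w.toMonoidHom = conjHom g D₀.1 D₀.1 hr := by
      apply MonoidHom.ext
      intro a
      exact Subtype.ext (hg a)
    rw [e1]
    exact cl_conj D₀ D₀ g hr y
  have h2 : (W.card : ℤ) • cl D₀ y = 0 := by
    have e1 := congrArg (clHom k D₀) h0
    rw [map_sum, map_zero] at e1
    simp only [clHom_apply] at e1
    rw [Finset.sum_congr rfl h1, Finset.sum_const] at e1
    rw [natCast_zsmul]
    exact e1
  refine ⟨W.card, ?_, h2⟩
  have : (1 : MulAut D₀.1) ∈ W := by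
    rw [Finset.mem_filter]
    exact ⟨Finset.mem_univ _, 1, fun d => by simp⟩
  exact_mod_cast (Finset.card_pos.2 ⟨_, this⟩).ne'

/-- A sum of primitive classes in the kernel of the assembly map (up to a nonzero factor) is
torsion. -/
theorem torsion_list (N : ℕ) : ∀ l : List (ColimK0 k G), l.length = N →
    (∀ z ∈ l, z ∈ PrimSet L i G) → ∀ M : ℤ, M ≠ 0 → M • assembly k G l.sum = 0 →
    ∃ m : ℤ, m ≠ 0 ∧ m • l.sum = 0 := by
  induction N using Nat.strong_induction_on with
  | _ N ih =>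
    intro l hN hl M hM h
    rcases l with _ | ⟨z, l⟩
    · exact ⟨1, one_ne_zero, by simp⟩
    obtain ⟨D₀, hcyc, ho, y₀, hy₀, rfl⟩ := hl z List.mem_cons_self
    obtain ⟨y₁, hy₁, l', h1, h2, h3⟩ := split_list L i D₀ l
      (fun z hz => hl z (List.mem_cons_of_mem _ hz))
    have e1 : (cl D₀ y₀ :: l).sum = cl D₀ (y₀ + y₁) + l'.sum := by
      rw [List.sum_cons, h3, ← clHom_apply, ← clHom_apply, ← clHom_apply, map_add, add_assoc]
    have hy : IsPrim L i (y₀ + y₁) := isPrim_add L i hy₀ hy₁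
    rw [e1] at h ⊢
    have hvan : ∀ (n : ℕ) (c : D₀.1), Subgroup.zpowers c = ⊤ →
        LT L n i (cf (L.B n) (c : G)) (cf_comm _ (c : G)) (assembly k G l'.sum) = 0 := by
      intro n c hc
      rw [map_list_sum, map_list_sum]
      apply List.sum_eq_zero
      intro x hx
      rw [List.map_map, List.mem_map] at hx
      obtain ⟨z, hz, rfl⟩ := hx
      obtain ⟨⟨D, hD, _, y, hy, rfl⟩, hz2⟩ := h1 z hz
      have := D.2
      have : Fintype D.1 := Fintype.ofFinite D.1
      exact LT_cf_not_over L i n D₀ D c hc y hy hz2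
    obtain ⟨m, hm, hm'⟩ := torsion_of_vanish L i D₀ ho (y₀ + y₁) hy M hM (by
      intro n c hc
      have e2 := congrArg (LT L n i (cf (L.B n) (c : G)) (cf_comm _ (c : G))) h
      rw [map_add, map_zsmul, map_add, hvan n c hc, add_zero, map_zero, zsmul_eq_mul] at e2
      exact e2)
    have e3 : (M * m) • assembly k G l'.sum = 0 := by
      have e4 : (M * m) • assembly k G (cl D₀ (y₀ + y₁) + l'.sum) = 0 := by
        rw [mul_comm, mul_smul, h, smul_zero]
      rw [map_add, smul_add, mul_smul M m (assembly k G (cl D₀ (y₀ + y₁))), ← map_zsmul, hm',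
        map_zero, smul_zero, zero_add] at e4
      exact e4
    obtain ⟨m', hm'', hm'''⟩ := ih l'.length (by rw [← hN, List.length_cons]; omega) l' rfl
      (fun z hz => (h1 z hz).1) (M * m) (mul_ne_zero hM hm) e3
    refine ⟨m * m', mul_ne_zero hm hm'', ?_⟩
    rw [smul_add, mul_smul m m' l'.sum, hm''', smul_zero, add_zero, mul_comm, mul_smul, hm',
      smul_zero]

/-- Elements of the subgroup generated by the primitive classes are sums of primitive classes. -/
theorem exists_list {z : ColimK0 k G} (hz : z ∈ AddSubgroup.closure (PrimSet L i G)) :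
    ∃ l : List (ColimK0 k G), (∀ z ∈ l, z ∈ PrimSet L i G) ∧ l.sum = z := by
  induction hz using AddSubgroup.closure_induction with
  | mem x hx => exact ⟨[x], by simpa using hx, by simp⟩
  | zero => exact ⟨[], by simp, rfl⟩
  | add x y _ _ hx hy =>
    obtain ⟨l, h1, rfl⟩ := hx
    obtain ⟨l', h1', rfl⟩ := hy
    refine ⟨l ++ l', ?_, List.sum_append⟩
    intro z hz
    rcases List.mem_append.1 hz with h | h
    · exact h1 z h
    · exact h1' z h
  | neg x _ hx =>
    obtain ⟨l, h1, rfl⟩ := hx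
    refine ⟨l.map (- ·), ?_, ?_⟩
    · intro z hz
      obtain ⟨y, hy, rfl⟩ := List.mem_map.1 hz
      exact primSet_neg L i (h1 y hy)
    · have hneg : ∀ l : List (ColimK0 k G), (l.map (- ·)).sum = - l.sum := by
        intro l
        induction l with
        | nil => simp
        | cons a l ih => rw [List.map_cons, List.sum_cons, List.sum_cons, ih, neg_add]
      exact hneg l

include L i in
theorem kernel_torsion_aux (z : ColimK0 k G) (M : ℤ) (hM : M ≠ 0)
    (h : M • assembly k G z = 0) : ∃ m : ℤ, m ≠ 0 ∧ m • z = 0 := by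
  obtain ⟨m, hm, hz⟩ := mem_sat L i z
  obtain ⟨l, h1, hl'⟩ := exists_list L i hz
  obtain ⟨m', hm', h2⟩ := torsion_list L i l.length l rfl h1 M hM (by
    rw [hl', map_zsmul, smul_comm, h, smul_zero])
  exact ⟨m' * m, mul_ne_zero hm' hm, by rw [mul_smul, ← hl', h2]⟩

end

/-- The kernel of the degree zero assembly map is a torsion group. -/
theorem kernel_torsion (k : Type u) [Field k] (G : Type v) [Group G] (z : ColimK0 k G) (M : ℤ)
    (hM : M ≠ 0) (h : M • assembly k G z = 0) : ∃ m : ℤ, m ≠ 0 ∧ m • z = 0 := by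
  obtain ⟨L⟩ := exists_liftSys (AlgebraicClosure k)
  exact kernel_torsion_aux L (algebraMap k (AlgebraicClosure k)) z M hM h

end Pool.Agent.H71.FJ
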